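import Pool.Agent.Helper18.FM.GoalsB
import Pool.Agent.Helper29.HL.HSP

/-!
# FM, packet FCR: the curvature equality `CRV h C (h⁻¹ X) = 0`
-/

open Complex Metric Set Filter Topology MeasureTheory
open scoped ContDiff ComplexConjugate ComplexOrder Manifold Matrix

namespace Pool.Agent.Helper95.FM.FCR

open Pool.Agent.Helper95.Lin Pool.Agent.Helper16.Abund Pool.Agent.Helper92.Orb
  Pool.Agent.Helper10.SP Pool.Agent.Helper95.RK Pool.Agent.Helper57.HS
  Pool.Agent.Helper15.HS Pool.Agent.Helper15.GS Pool.Agent.Helper57.RBC Pool.Agent.Helper82.HB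
  Pool.Agent.Helper18.FM
open Pool.Agent.Helper10.RBC (dn)
open Pool.Agent.Helper29.HB (WL)
open Pool.Agent.Helper27.TRB (tw)
open Pool.Agent.Helper29.HL (wcc cmul cstar cent ctrace cdet cofent clift)
open Pool.Agent.Helper56.HS.DBZ (trace_nonneg contM)

universe u

variable {n m : ℕ}

theorem cinv {α : Type*} [TopologicalSpace α] {T : Set α} {A : α → Matrix (Fin m) (Fin m) ℂ}
    (hA : ContinuousOn A T) (h0 : ∀ x ∈ T, (A x).det ≠ 0) :
    ContinuousOn (fun x => (A x)⁻¹) T := by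
  have h1 : ContinuousOn (fun x => ((A x).det)⁻¹ • (A x).adjugate) T :=
    ((cdet hA).inv₀ h0).smul
      ((Continuous.matrix_adjugate continuous_id).comp_continuousOn hA)
  refine h1.congr fun x _ => ?_
  rw [Matrix.inv_def, Ring.inverse_eq_inv']

open scoped MatrixOrder in
/-- `0 ≤ tr (χ K g K) ≤ tr (g K) tr (χ K)` for positive semidefinite matrices. -/
theorem trb_semi {χ K g : Matrix (Fin n) (Fin n) ℂ} (hχ : χ.PosSemidef) (hK : K.PosSemidef)
    (hg : g.PosSemidef) :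
    0 ≤ (Matrix.trace (χ * K * g * K)).re ∧
    (Matrix.trace (χ * K * g * K)).re ≤
      (Matrix.trace (g * K)).re * (Matrix.trace (χ * K)).re := by
  obtain ⟨S, hS⟩ := CStarAlgebra.nonneg_iff_eq_star_mul_self.1 hK.nonneg
  rw [Matrix.star_eq_conjTranspose] at hS
  have hB := hg.mul_mul_conjTranspose_same S
  have e1 : Matrix.trace (S * g * Sᴴ) = Matrix.trace (g * K) := by
    rw [hS, Matrix.mul_assoc, Matrix.trace_mul_comm, Matrix.mul_assoc]
  refine ⟨?_, ?_⟩
  · have h2 := trace_nonneg hχ (hB.conjTranspose_mul_mul_same S)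
    have e2 : χ * (Sᴴ * (S * g * Sᴴ) * S) = χ * K * g * K := by
      rw [hS]
      simp only [Matrix.mul_assoc]
    rwa [e2] at h2
  · have h1 := Pool.Agent.Helper94.GS.psd_trace hB
    have h2 := trace_nonneg hχ (h1.conjTranspose_mul_mul_same S)
    have e2 : χ * (Sᴴ * (((Matrix.trace (S * g * Sᴴ)).re : ℂ) • (1 : Matrix (Fin n) (Fin n) ℂ) -
        S * g * Sᴴ) * S) = ((Matrix.trace (S * g * Sᴴ)).re : ℂ) • (χ * K) - χ * K * g * K := by
      rw [Matrix.mul_sub, Matrix.sub_mul, Matrix.mul_sub, Matrix.mul_smul, Matrix.smul_mul,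
        Matrix.mul_smul, Matrix.mul_one, ← hS]
      congr 1
      rw [hS]
      simp only [Matrix.mul_assoc]
    rw [e2, Matrix.trace_sub, Matrix.trace_smul, smul_eq_mul, Complex.sub_re,
      Complex.re_ofReal_mul, e1] at h2
    linarith

theorem tr_move (A : Matrix (Fin m) (Fin m) ℂ) (s : Matrix (Fin n) (Fin m) ℂ)
    (K : Matrix (Fin n) (Fin n) ℂ) :
    Matrix.trace (s * A * sᴴ * K) = Matrix.trace (A * (sᴴ * K * s)) := by
  rw [Matrix.mul_assoc, Matrix.mul_assoc, Matrix.trace_mul_comm]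
  simp only [Matrix.mul_assoc]

/-- The curvature term in the slots of the target. -/
theorem nks_eq {T : Set (Cn n)} {σ : Cn n → Matrix (Fin n) (Fin m) ℂ}
    {h : Cn n → Matrix (Fin m) (Fin m) ℂ} {Γ : Fin m → Cn n → Matrix (Fin m) (Fin m) ℂ}
    {C : Fin m → Fin m → Cn n → Matrix (Fin m) (Fin m) ℂ} (hC : CF T σ h Γ C)
    (Q : Cn n → Matrix (Fin n) (Fin n) ℂ) {x : Cn n} (hx : x ∈ T) :
    NKs σ h Q x = CRV h C ((σ x)ᴴ * (Q x)⁻¹ * σ x) x := by
  unfold NKs CRV
  congr 1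
  have e1 : ∀ k l, Matrix.trace (σ x * (RE h k l x * h x) * (σ x)ᴴ * (Q x)⁻¹) =
      ∑ a, ∑ b, (σ x k a * conj (σ x l b)) *
        Matrix.trace (C a b x * h x * ((σ x)ᴴ * (Q x)⁻¹ * σ x)) := by
    intro k l
    rw [tr_move, hC.cur x hx k l]
    simp only [Finset.sum_mul, Matrix.smul_mul, Matrix.trace_sum, Matrix.trace_smul, smul_eq_mul]
  have e2 : ∀ a b, ((σ x)ᴴ * (Q x)⁻¹ * σ x) b a =
      ∑ k, ∑ l, (Q x)⁻¹ l k * (σ x k a * conj (σ x l b)) := by
    intro a b
    rw [Matrix.mul_apply]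
    refine Finset.sum_congr rfl fun k _ => ?_
    rw [Matrix.mul_apply, Finset.sum_mul]
    refine Finset.sum_congr rfl fun l _ => ?_
    rw [Matrix.conjTranspose_apply, Complex.star_def]
    ring
  simp only [e1, e2, Finset.sum_mul, Finset.mul_sum]
  calc ∑ k, ∑ l, ∑ a, ∑ b, (Q x)⁻¹ l k * ((σ x k a * conj (σ x l b)) *
        Matrix.trace (C a b x * h x * ((σ x)ᴴ * (Q x)⁻¹ * σ x)))
      = ∑ k, ∑ a, ∑ l, ∑ b, (Q x)⁻¹ l k * ((σ x k a * conj (σ x l b)) *
        Matrix.trace (C a b x * h x * ((σ x)ᴴ * (Q x)⁻¹ * σ x))) :=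
        Finset.sum_congr rfl fun k _ => Finset.sum_comm
    _ = ∑ k, ∑ a, ∑ b, ∑ l, (Q x)⁻¹ l k * ((σ x k a * conj (σ x l b)) *
        Matrix.trace (C a b x * h x * ((σ x)ᴴ * (Q x)⁻¹ * σ x))) :=
        Finset.sum_congr rfl fun k _ => Finset.sum_congr rfl fun a _ => Finset.sum_comm
    _ = ∑ a, ∑ k, ∑ b, ∑ l, (Q x)⁻¹ l k * ((σ x k a * conj (σ x l b)) *
        Matrix.trace (C a b x * h x * ((σ x)ᴴ * (Q x)⁻¹ * σ x))) := Finset.sum_comm
    _ = ∑ a, ∑ b, ∑ k, ∑ l, (Q x)⁻¹ l k * ((σ x k a * conj (σ x l b)) *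
        Matrix.trace (C a b x * h x * ((σ x)ᴴ * (Q x)⁻¹ * σ x))) :=
        Finset.sum_congr rfl fun a _ => Finset.sum_comm
    _ = _ := by
        refine Finset.sum_congr rfl fun a _ => Finset.sum_congr rfl fun b _ =>
          Finset.sum_congr rfl fun k _ => Finset.sum_congr rfl fun l _ => ?_
        ring

theorem crv_smul (h : Cn n → Matrix (Fin m) (Fin m) ℂ)
    (C : Fin m → Fin m → Cn n → Matrix (Fin m) (Fin m) ℂ) (Y : Matrix (Fin m) (Fin m) ℂ)
    (x : Cn n) (e : ℝ) : CRV h C ((e : ℂ) • Y) x = e ^ 2 * CRV h C Y x := by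
  unfold CRV
  rw [← Complex.re_ofReal_mul]
  congr 1
  rw [Finset.mul_sum]
  refine Finset.sum_congr rfl fun a _ => ?_
  rw [Finset.mul_sum]
  refine Finset.sum_congr rfl fun b _ => ?_
  rw [Matrix.smul_apply, Matrix.mul_smul, Matrix.trace_smul, smul_eq_mul, smul_eq_mul]
  push_cast
  ring

/-- FCR. -/
theorem t (hFCL : S_FCL.{u}) : Pool.Agent.Helper18.FM.S_FCR.{u} := by
  intro n m T G _ R H σ h χ c ψ hD Γ C hCF κ X s S N φ H' ε Q hL
  have hQk : ∀ j, KEt T R (Q j) := fun j => (hL.seq.tke j).ket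
  have hε : ∀ j, 0 < ε j := hL.seq.eps
  have hε1 : ∀ j, ε j ≤ 1 := fun j => (hL.seq.eps_le j).trans (by
    rw [div_le_one (by positivity)]
    have : (0 : ℝ) ≤ j := Nat.cast_nonneg j
    linarith)
  have hfc := fun j => hFCL T R σ h hD.sf (Q j)
    (fun x => ((ε j : ℝ) : ℂ) • tw χ (ε j) (H' j) x) (hQk j) (hL.seq.tke j).eq
  have hhc : ContinuousOn h T := cofent fun i j => (hD.sf.smooth i j).continuousOn
  have hσc : ContinuousOn σ T := cofent fun i j => (hD.sf.holo i j).continuousOn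
  have hχc : ContinuousOn χ T := cofent fun i j => (hD.pf.smooth i j).continuousOn
  have hgc : ContinuousOn (gS σ h) T := cmul (cmul hσc hhc) (cstar hσc)
  have hCc : ∀ a b, ContinuousOn (C a b) T := fun a b => cofent fun p q => hCF.cC a b p q
  have hhi : ContinuousOn (fun x => (h x)⁻¹) T :=
    cinv hhc fun y hy => (hD.sf.posDef y hy).det_pos.ne'
  have hQi : ∀ j, ContinuousOn (fun x => (Q j x)⁻¹) T := fun j =>
    cinv (contM (hQk j).smooth) fun y hy => ((hQk j).posDef y hy).det_pos.ne'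
  have hcχ : ∀ j, ContinuousOn (fun x => (Matrix.trace (χ x * (Q j x)⁻¹)).re) T := fun j =>
    Complex.continuous_re.comp_continuousOn (ctrace (cmul hχc (hQi j)))
  have hcE : ∀ j, ContinuousOn (ERR σ h χ (Q j)) T := fun j =>
    (hfc j).2.2.1.add ((hfc j).2.2.2.1.add (Complex.continuous_re.comp_continuousOn
      (ctrace (cmul (cmul (cmul hχc (hQi j)) hgc) (hQi j)))))
  intro x hx
  have key := wcc T _ _ X hL.wl
    (fun x Y => |CRV h C ((h x)⁻¹ * Y) x|) ?_
    (fun j x => ε j * ERR σ h χ (Q j) x +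
      (s + 1) * (ε j * (Matrix.trace (χ x * (Q j x)⁻¹)).re)) ?_ ?_ ?_ x hx
  · exact abs_eq_zero.1 (le_antisymm key (abs_nonneg _))
  · have hXc : ContinuousOn (fun q : Cn n × Matrix (Fin m) (Fin m) ℂ => q.2) (T ×ˢ univ) :=
      continuousOn_snd
    have hYc : ContinuousOn (fun q : Cn n × Matrix (Fin m) (Fin m) ℂ => (h q.1)⁻¹ * q.2)
        (T ×ˢ univ) := cmul (clift (F := Matrix (Fin m) (Fin m) ℂ) hhi) hXc
    refine (Complex.continuous_re.comp_continuousOn ?_).abs
    refine continuousOn_finsetSum _ fun a _ => continuousOn_finsetSum _ fun b _ => ?_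
    exact (cent hYc b a).mul (ctrace (cmul (cmul (clift (hCc a b)) (clift hhc)) hYc))
  · intro j
    exact (continuousOn_const.mul (hcE j)).add
      (continuousOn_const.mul (continuousOn_const.mul (hcχ j)))
  · intro j y hy
    have hud : IsUnit (h y).det := isUnit_iff_ne_zero.2 (hD.sf.posDef y hy).det_pos.ne'
    have e1 : (h y)⁻¹ * XS (ε j) σ h (Q j) y = ((ε j : ℝ) : ℂ) • ((σ y)ᴴ * (Q j y)⁻¹ * σ y) := by
      unfold XS
      rw [Matrix.mul_smul]
      congr 1
      rw [Matrix.mul_assoc (h y), Matrix.mul_assoc (h y), Matrix.nonsing_inv_mul_cancel_left _ _ hud]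
    show |CRV h C ((h y)⁻¹ * XS (ε j) σ h (Q j) y) y| ≤ ε j * ERR σ h χ (Q j) y +
      (s + 1) * (ε j * (Matrix.trace (χ y * (Q j y)⁻¹)).re)
    rw [e1, crv_smul, ← nks_eq hCF (Q j) hy]
    obtain ⟨-, -, -, -, -, hpt⟩ := hfc j
    obtain ⟨hg, -, hA0, -⟩ := hpt y hy
    have hKp := ((hQk j).posDef y hy).posSemidef.inv
    have hcp := hD.pf.psd y hy
    obtain ⟨t0, t1⟩ := trb_semi hcp hKp hg
    have h1 : 0 ≤ NKs σ h (Q j) y +
      (Matrix.trace (χ y * (Q j y)⁻¹ * gS σ h y * (Q j y)⁻¹)).re := hD.trb y hy _ hKp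
    have c0 : 0 ≤ (Matrix.trace (χ y * (Q j y)⁻¹)).re := trace_nonneg hcp hKp
    have h3 := hε j
    have h4 := hε1 j
    have h5 : ε j * (Matrix.trace (gS σ h y * (Q j y)⁻¹)).re ≤ s + 1 := by
      refine (hL.seq.m_le j y hy).trans ((hL.seq.S_le j).trans ?_)
      have h6 : (1 : ℝ) / ((j : ℝ) + 1) ≤ 1 := by
        rw [div_le_one (by positivity)]
        have : (0 : ℝ) ≤ j := Nat.cast_nonneg j
        linarith
      linarith
    unfold ERR
    generalize (Matrix.trace (χ y * (Q j y)⁻¹ * gS σ h y * (Q j y)⁻¹)).re = t at *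
    generalize (Matrix.trace (χ y * (Q j y)⁻¹)).re = c at *
    generalize (Matrix.trace (gS σ h y * (Q j y)⁻¹)).re = m at *
    generalize NKs σ h (Q j) y = k at *
    generalize AAs σ h (Q j) y = a at *
    generalize ε j = e at *
    have h6 : e * t ≤ (s + 1) * c := by
      calc e * t ≤ e * (m * c) := mul_le_mul_of_nonneg_left t1 h3.le
        _ = (e * m) * c := by ring
        _ ≤ (s + 1) * c := mul_le_mul_of_nonneg_right h5 c0
    have h7 : e * (e * t) ≤ e * ((s + 1) * c) := mul_le_mul_of_nonneg_left h6 h3.le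
    have h8 : e ^ 2 * (k + t) ≤ e * (k + t) := by
      have : 0 ≤ e * (1 - e) * (k + t) := mul_nonneg (mul_nonneg h3.le (by linarith)) h1
      nlinarith [this]
    have h9 : 0 ≤ e ^ 2 * (k + t) := mul_nonneg (sq_nonneg e) h1
    have h10 : 0 ≤ e * (e * t) := mul_nonneg h3.le (mul_nonneg h3.le t0)
    have h11 : 0 ≤ e * a := mul_nonneg h3.le hA0
    rw [abs_le]
    constructor
    · nlinarith [h7, h8, h9, h10, h11]
    · nlinarith [h7, h8, h9, h10, h11]
  · intro W hWT hWc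
    have l1 := hL.err W hWT hWc
    have l2 := (hL.ch W hWT hWc).const_mul (s + 1)
    rw [mul_zero] at l2
    have l3 := l1.add l2
    rw [add_zero] at l3
    refine l3.congr fun j => ?_
    rw [← integral_const_mul, ← integral_add]
    · refine integral_congr_ae (Filter.Eventually.of_forall fun x => ?_)
      simp only
      ring
    · exact (((hL.wl.wc j).mul (continuousOn_const.mul (hcE j))).mono
        hWT).integrableOn_compact hWc
    · exact ((continuousOn_const.mul ((hL.wl.wc j).mul (continuousOn_const.mul (hcχ j)))).mono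
        hWT).integrableOn_compact hWc

end Pool.Agent.Helper95.FM.FCR
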